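import Mathlib

/-! # Induced class functions -/

set_option autoImplicit false

namespace Pool.Agent.Q12.NL

variable {W : Type} [Group W]

open Classical in
/-- the summand of the induced function -/
noncomputable def Fs (H : Subgroup W) (φ : W → ℂ) (w y : W) : ℂ :=
  if y⁻¹ * w * y ∈ H then φ (y⁻¹ * w * y) else 0

/-- the class function on `W` induced by the class function `φ` on the subgroup `H` -/
noncomputable def indF (H : Subgroup W) (φ : W → ℂ) (w : W) : ℂ := ∑ᶠ x : W ⧸ H, Fs H φ w x.out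

theorem Fs_right {H : Subgroup W} {φ : W → ℂ} (hφ : ∀ h ∈ H, ∀ a ∈ H, φ (a⁻¹ * h * a) = φ h) (w y : W)
    {a : W} (ha : a ∈ H) : Fs H φ w (y * a) = Fs H φ w y := by
  classical
  unfold Fs
  have e : (y * a)⁻¹ * w * (y * a) = a⁻¹ * (y⁻¹ * w * y) * a := by group
  have h1 : (y * a)⁻¹ * w * (y * a) ∈ H ↔ y⁻¹ * w * y ∈ H := by
    rw [e]
    constructor
    · intro h
      have := H.mul_mem (H.mul_mem ha h) (H.inv_mem ha)
      have e2 : a * (a⁻¹ * (y⁻¹ * w * y) * a) * a⁻¹ = y⁻¹ * w * y := by group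
      rwa [e2] at this
    · intro h
      exact H.mul_mem (H.mul_mem (H.inv_mem ha) h) ha
  by_cases h : y⁻¹ * w * y ∈ H
  · rw [if_pos h, if_pos (h1.2 h), e, hφ _ h a ha]
  · rw [if_neg h, if_neg (fun hh => h (h1.1 hh))]

theorem Fs_congr {H : Subgroup W} {φ φ' : W → ℂ} (h : ∀ x ∈ H, φ x = φ' x) (w y : W) :
    Fs H φ w y = Fs H φ' w y := by
  unfold Fs
  split_ifs with hx
  · exact h _ hx
  · rfl

theorem indF_congr {H : Subgroup W} {φ φ' : W → ℂ} (h : ∀ x ∈ H, φ x = φ' x) (w : W) :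
    indF H φ w = indF H φ' w := by
  unfold indF
  exact finsum_congr fun x => Fs_congr h w x.out

theorem indF_add {H : Subgroup W} [Finite (W ⧸ H)] (φ φ' : W → ℂ) (w : W) :
    indF H (fun x => φ x + φ' x) w = indF H φ w + indF H φ' w := by
  classical
  have := Fintype.ofFinite (W ⧸ H)
  unfold indF
  rw [finsum_eq_sum_of_fintype, finsum_eq_sum_of_fintype, finsum_eq_sum_of_fintype,
    ← Finset.sum_add_distrib]
  refine Finset.sum_congr rfl fun x _ => ?_
  unfold Fs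
  split_ifs
  · rfl
  · rw [add_zero]

theorem indF_zero {H : Subgroup W} (w : W) : indF H (fun _ => 0) w = 0 := by
  unfold indF Fs
  simp

theorem indF_list {X : Type} {H : Subgroup W} [Finite (W ⧸ H)] (l : List X) (φ : X → W → ℂ) (w : W) :
    indF H (fun h => (l.map fun y => φ y h).sum) w = (l.map fun y => indF H (φ y) w).sum := by
  induction l with
  | nil => simpa using indF_zero w
  | cons y l ih =>
    simp only [List.map_cons, List.sum_cons]
    rw [indF_add, ih]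

/-- the projection formula -/
theorem indF_mul {H : Subgroup W} [Finite (W ⧸ H)] (φ χ : W → ℂ) (hχ : ∀ x y, χ (y⁻¹ * x * y) = χ x) (w : W) :
    indF H (fun x => φ x * χ x) w = indF H φ w * χ w := by
  classical
  have := Fintype.ofFinite (W ⧸ H)
  unfold indF
  rw [finsum_eq_sum_of_fintype, finsum_eq_sum_of_fintype, Finset.sum_mul]
  refine Finset.sum_congr rfl fun x _ => ?_
  unfold Fs
  split_ifs
  · dsimp only
    rw [hχ]
  · rw [zero_mul]

/-- **Transitivity of induction.** -/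
theorem indF_trans {M H : Subgroup W} (hMH : M ≤ H) [Finite (W ⧸ M)] {φ : W → ℂ}
    (hφ : ∀ h ∈ M, ∀ a ∈ M, φ (a⁻¹ * h * a) = φ h) (w : W) :
    indF H (fun h => ∑ᶠ z : H ⧸ M.subgroupOf H, Fs M φ h (z.out : H)) w = indF M φ w := by
  classical
  have e := Subgroup.quotientEquivProdOfLE hMH
  have hfp : Finite ((W ⧸ H) × (H ⧸ M.subgroupOf H)) := Finite.of_equiv _ e
  have f1 : Finite (W ⧸ H) := Finite.of_surjective (fun p : (W ⧸ H) × (H ⧸ M.subgroupOf H) => p.1)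
    fun x => ⟨(x, QuotientGroup.mk 1), rfl⟩
  have f2 : Finite (H ⧸ M.subgroupOf H) :=
    Finite.of_surjective (fun p : (W ⧸ H) × (H ⧸ M.subgroupOf H) => p.2)
    fun x => ⟨(QuotientGroup.mk 1, x), rfl⟩
  have := Fintype.ofFinite (W ⧸ H)
  have := Fintype.ofFinite (W ⧸ M)
  have := Fintype.ofFinite (H ⧸ M.subgroupOf H)
  unfold indF
  rw [finsum_eq_sum_of_fintype, finsum_eq_sum_of_fintype,
    ← (Subgroup.quotientEquivProdOfLE hMH).symm.sum_comp, Fintype.sum_prod_type]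
  refine Finset.sum_congr rfl fun x _ => ?_
  have h1 : ∀ z : H ⧸ M.subgroupOf H,
      Fs M φ w ((Subgroup.quotientEquivProdOfLE hMH).symm (x, z)).out =
        Fs M φ (x.out⁻¹ * w * x.out) (z.out : H) := by
    intro z
    have h2 : (Subgroup.quotientEquivProdOfLE hMH).symm (x, z) =
        QuotientGroup.mk (x.out * (z.out : H)) := by
      conv_lhs => rw [← QuotientGroup.out_eq' z]
      rfl
    obtain ⟨m, hm⟩ := QuotientGroup.mk_out_eq_mul M (x.out * ((z.out : H) : W))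
    rw [h2, hm, Fs_right hφ w _ m.2]
    unfold Fs
    have e3 : (x.out * ((z.out : H) : W))⁻¹ * w * (x.out * ((z.out : H) : W)) =
        ((z.out : H) : W)⁻¹ * (x.out⁻¹ * w * x.out) * ((z.out : H) : W) := by group
    rw [e3]
  simp_rw [h1]
  by_cases hx : x.out⁻¹ * w * x.out ∈ H
  · have h3 : Fs H (fun h => ∑ᶠ z : H ⧸ M.subgroupOf H, Fs M φ h (z.out : H)) w x.out =
        ∑ᶠ z : H ⧸ M.subgroupOf H, Fs M φ (x.out⁻¹ * w * x.out) (z.out : H) := if_pos hx
    rw [h3, finsum_eq_sum_of_fintype]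
  · have h3 : Fs H (fun h => ∑ᶠ z : H ⧸ M.subgroupOf H, Fs M φ h (z.out : H)) w x.out = 0 := if_neg hx
    rw [h3]
    symm
    refine Finset.sum_eq_zero fun z _ => ?_
    unfold Fs
    rw [if_neg]
    intro h
    apply hx
    have h4 := H.mul_mem (H.mul_mem z.out.2 (hMH h)) (H.inv_mem z.out.2)
    have e4 : ((z.out : H) : W) * (((z.out : H) : W)⁻¹ * (x.out⁻¹ * w * x.out) * ((z.out : H) : W)) *
        ((z.out : H) : W)⁻¹ = x.out⁻¹ * w * x.out := by group
    rwa [e4] at h4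

open Classical in
/-- the extension by zero of a character of a subgroup -/
noncomputable def extF {H : Subgroup W} (ψ : H →* ℂˣ) (w : W) : ℂ :=
  if h : w ∈ H then ((ψ ⟨w, h⟩ : ℂˣ) : ℂ) else 0

theorem extF_of {H : Subgroup W} (ψ : H →* ℂˣ) {w : W} (h : w ∈ H) :
    extF ψ w = ((ψ ⟨w, h⟩ : ℂˣ) : ℂ) := dif_pos h

theorem extF_conj {H : Subgroup W} (ψ : H →* ℂˣ) {h a : W} (hh : h ∈ H) (ha : a ∈ H) :
    extF ψ (a⁻¹ * h * a) = extF ψ h := by
  rw [extF_of ψ hh, extF_of ψ (H.mul_mem (H.mul_mem (H.inv_mem ha) hh) ha)]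
  have : (⟨a⁻¹ * h * a, H.mul_mem (H.mul_mem (H.inv_mem ha) hh) ha⟩ : H) =
      (⟨a, ha⟩ : H)⁻¹ * ⟨h, hh⟩ * ⟨a, ha⟩ := rfl
  rw [this, map_mul, map_mul, map_inv, mul_comm, mul_inv_cancel_left]

theorem norm_extF_le {H : Subgroup W} (ψ : H →* ℂˣ) (hψ : ∀ x, ‖((ψ x : ℂˣ) : ℂ)‖ ≤ 1) (w : W) :
    ‖extF ψ w‖ ≤ 1 := by
  unfold extF
  split_ifs with h
  · exact hψ _
  · simp

theorem norm_char {H : Subgroup W} {A : Subgroup W} [A.Normal] [Finite (W ⧸ A)] (ψ : H →* ℂˣ)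
    (hψ : ∀ a : H, (a : W) ∈ A → ψ a = 1) (x : H) : ‖((ψ x : ℂˣ) : ℂ)‖ = 1 := by
  have h1 : (x : W) ^ (Nat.card (W ⧸ A)) ∈ A := by
    have : ((QuotientGroup.mk (x : W) : W ⧸ A)) ^ Nat.card (W ⧸ A) = 1 := pow_card_eq_one'
    rw [← QuotientGroup.eq_one_iff, QuotientGroup.mk_pow]
    exact this
  have h2 : (ψ x) ^ (Nat.card (W ⧸ A)) = 1 := by
    rw [← map_pow]
    exact hψ _ (by simpa using h1)
  have h3 : ((ψ x : ℂˣ) : ℂ) ^ (Nat.card (W ⧸ A)) = 1 := by
    rw [← Units.val_pow_eq_pow_val, h2, Units.val_one]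
  exact Complex.norm_eq_one_of_pow_eq_one h3 Nat.card_pos.ne'

/-- subquotients of nilpotent groups -/
theorem nil_sub {A M H : Subgroup W} [A.Normal] (hMH : M ≤ H) [Group.IsNilpotent (H ⧸ A.subgroupOf H)] :
    Group.IsNilpotent (M ⧸ A.subgroupOf M) := by
  have hle : A.subgroupOf M ≤ (A.subgroupOf H).comap (Subgroup.inclusion hMH) := fun x hx => hx
  refine Subgroup.isNilpotent_of_ker_le_center
    (QuotientGroup.map (A.subgroupOf M) (A.subgroupOf H) (Subgroup.inclusion hMH) hle) ?_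
  intro x hx
  obtain ⟨m, rfl⟩ := QuotientGroup.mk_surjective x
  have h1 : QuotientGroup.mk (Subgroup.inclusion hMH m) = (1 : H ⧸ A.subgroupOf H) := hx
  rw [QuotientGroup.eq_one_iff] at h1
  have h2 : (QuotientGroup.mk m : M ⧸ A.subgroupOf M) = 1 := (QuotientGroup.eq_one_iff m).2 h1
  rw [h2]
  exact Subgroup.one_mem _

end Pool.Agent.Q12.NL
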