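import Pool.Agent.Q12.NL.Main
import Pool.Agent.Q12.NL.Fn

/-! # Factorization for arbitrary finite quotients, by resolutions of the trivial representation -/

set_option autoImplicit false

namespace Pool.Agent.Q12.NL

open Pool.Agent.Q63.FL Complex

/-- A subgroup `H`, a character `ψ` of `H` and a subspace `U`; it stands for the representation `ψ ⊗ U`
of `H × C`. -/
structure Piece (W V : Type) [Group W] [AddCommGroup V] [Module ℂ V] where
  H : Subgroup W
  ψ : H →* ℂˣ
  U : Submodule ℂ V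

variable {W C V : Type} [Group W] [Group C] [AddCommGroup V] [Module ℂ V]
  {r : Representation ℂ W V} {c : Representation ℂ C V} {ι : Type}

/-- the character of the representation of `W × C` induced by `ψ ⊗ U` -/
noncomputable def chP (r : Representation ℂ W V) (c : Representation ℂ C V) (x : Piece W V) (w : W)
    (k : C) : ℂ :=
  indF x.H (fun h => extF x.ψ h * trOn x.U (r h * c k)) w

/-- The `L`-function of the representation `ψ ⊗ U` of `H × C`, that is of the representation of `W × C` which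
it induces, as the exponential of its logarithm
`∑_v ∑_n (character at (Frob_v, sat_v)^n) q_v^(-n s) / n`. -/
noncomputable def LP (q : ι → ℝ) (fr : ι → W) (sat : ι → C) (r : Representation ℂ W V)
    (c : Representation ℂ C V) (x : Piece W V) (s : ℂ) : ℂ :=
  cexp (∑' y : ι × ℕ, tm q (fun v n => chP r c x (fr v ^ n) (sat v ^ n)) s y)

/-- The basic pieces: `H` is a group between `A` and `W` with `H / A` nilpotent, `ψ` is a character of `H / A`
and `U` is an irreducible representation of `H × C` on which `H` acts by scalars. -/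
structure BasicP (r : Representation ℂ W V) (c : Representation ℂ C V) (A : Subgroup W) [A.Normal]
    (x : Piece W V) : Prop where
  le : A ≤ x.H
  nil : Group.IsNilpotent (x.H ⧸ A.subgroupOf x.H)
  triv : ∀ a : x.H, (a : W) ∈ A → x.ψ a = 1
  irr : Irr r c x.H x.U
  scal : ∀ h ∈ x.H, ∃ z : ℂ, ∀ u ∈ x.U, r h u = z • u

/-- A resolution of the trivial representation of `W / A`: integers `n_i`, groups `H_i` between `A` and `W`
with `H_i / A` nilpotent and characters `ψ_i` of `H_i / A` with `∑ n_i Ind ψ_i = 1`.  By Brauer's theorem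
there is one for every finite group `W / A`. -/
structure IsResolution (A : Subgroup W) [A.Normal] (B : List (ℤ × Σ H : Subgroup W, (H →* ℂˣ))) : Prop where
  grp : ∀ x ∈ B, A ≤ x.2.1 ∧ Group.IsNilpotent (x.2.1 ⧸ A.subgroupOf x.2.1) ∧
    ∀ a : x.2.1, (a : W) ∈ A → x.2.2 a = 1
  one : ∀ w, (B.map fun x => (x.1 : ℂ) * indF x.2.1 (extF x.2.2) w).sum = 1

theorem trOn_conj (hcomm : ∀ w k, Commute (r w) (c k)) {H : Subgroup W} {U : Submodule ℂ V}
    (hU : Stable r c H U) {h a : W} (hh : h ∈ H) (ha : a ∈ H) (k : C) :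
    trOn U (r (a⁻¹ * h * a) * c k) = trOn U (r h * c k) := by
  have h2 := trOn_map (re r a⁻¹) U (f := r h * c k) (st_mul hU hh k)
  rw [re_conj hcomm, re_coe, st_map hU.1 (H.inv_mem ha), inv_inv] at h2
  exact h2

theorem trace_conj_rc (hcomm : ∀ w k, Commute (r w) (c k)) (x y : W) (k : C) :
    LinearMap.trace ℂ V (r (y⁻¹ * x * y) * c k) = LinearMap.trace ℂ V (r x * c k) := by
  have h := re_conj hcomm y⁻¹ x k
  rw [inv_inv] at h
  rw [← h, LinearMap.trace_conj']

/-- change of the index group of the cosets -/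
theorem finsum_out_eq {G : Type} [Group G] {K K' : Subgroup G} (h : K = K') (F : G → ℂ) :
    ∑ᶠ z : G ⧸ K, F z.out = ∑ᶠ z : G ⧸ K', F z.out := by
  subst h
  rfl

theorem cls_fn (hcomm : ∀ w k, Commute (r w) (c k)) {M : Subgroup W} {U : Submodule ℂ V}
    (hU : Stable r c M U) (ψ : M →* ℂˣ) (k : C) : ∀ h ∈ M, ∀ a ∈ M,
      extF ψ (a⁻¹ * h * a) * trOn U (r (a⁻¹ * h * a) * c k) = extF ψ h * trOn U (r h * c k) := by
  intro h hh a ha
  rw [extF_conj ψ hh ha, trOn_conj hcomm hU hh ha]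

/-- the piece of `W` given by a pair of the group `H` and a character of `H` -/
noncomputable def up {H : Subgroup W} (ψ : H →* ℂˣ) (x : Subgroup H × Submodule ℂ V) : Piece W V where
  H := x.1.map H.subtype
  ψ := ψ.comp (Subgroup.inclusion (Subgroup.map_subtype_le x.1))
  U := x.2

theorem inner (hcomm : ∀ w k, Commute (r w) (c k)) {H : Subgroup W} (ψ : H →* ℂˣ)
    (x : Subgroup H × Submodule ℂ V) {h : W} (hh : h ∈ H) (k : C) :
    ∑ᶠ z : H ⧸ (up (V := V) ψ x).H.subgroupOf H, Fs (up ψ x).H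
      (fun h => extF (up ψ x).ψ h * trOn (up ψ x).U (r h * c k)) h (z.out : H) =
      extF ψ h * indCh (r.comp H.subtype) c x.1 x.2 (⟨h, hh⟩ : H) k := by
  classical
  have e : (up (V := V) ψ x).H.subgroupOf H = x.1 :=
    Subgroup.comap_map_eq_self_of_injective H.subtype_injective x.1
  rw [finsum_out_eq e (fun z : H => Fs (up ψ x).H
      (fun h => extF (up ψ x).ψ h * trOn (up ψ x).U (r h * c k)) h (z : W))]
  unfold indCh
  rw [← smul_eq_mul, smul_finsum]
  refine finsum_congr fun z => ?_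
  rw [smul_eq_mul]
  unfold Fs Gs
  have hmem : ((z.out : H) : W)⁻¹ * h * (z.out : H) ∈ (up (V := V) ψ x).H ↔
      (z.out)⁻¹ * (⟨h, hh⟩ : H) * z.out ∈ x.1 := by
    have h0 := SetLike.ext_iff.1 e ((z.out)⁻¹ * (⟨h, hh⟩ : H) * z.out)
    rw [Subgroup.mem_subgroupOf] at h0
    exact h0
  by_cases hx : (z.out)⁻¹ * (⟨h, hh⟩ : H) * z.out ∈ x.1
  · rw [if_pos hx, if_pos (hmem.2 hx)]
    have h1 : extF (up (V := V) ψ x).ψ (((z.out : H) : W)⁻¹ * h * (z.out : H)) = extF ψ h := by
      rw [extF_of _ (hmem.2 hx), ← extF_conj ψ hh (z.out).2,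
        extF_of ψ (H.mul_mem (H.mul_mem (H.inv_mem (z.out).2) hh) (z.out).2)]
      rfl
    dsimp only
    rw [h1]
    rfl
  · rw [if_neg hx, if_neg (fun hc => hx (hmem.1 hc)), mul_zero]

variable [FiniteDimensional ℂ V]

/-- the character induced from one group `H` with `H / A` nilpotent -/
theorem one_res (hcomm : ∀ w k, Commute (r w) (c k)) {A : Subgroup W} [A.Normal] [Finite (W ⧸ A)]
    (hab : ∀ a ∈ A, ∀ b ∈ A, ∀ v, r a (r b v) = r b (r a v)) {H : Subgroup W} (hAH : A ≤ H)
    (hn : Group.IsNilpotent (H ⧸ A.subgroupOf H))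
    (hss : ∀ U, Stable r c H U → ∃ U', Stable r c H U' ∧ IsCompl U U') (ψ : H →* ℂˣ)
    (hψ : ∀ a : H, (a : W) ∈ A → ψ a = 1) :
    ∃ l : List (Piece W V), (∀ x ∈ l, BasicP r c A x) ∧ ∀ w k,
      indF H (fun h => extF ψ h * LinearMap.trace ℂ V (r h * c k)) w = (l.map fun x => chP r c x w k).sum := by
  classical
  have hAfi : A.FiniteIndex := Subgroup.finiteIndex_of_finite_quotient
  have hHfi : H.FiniteIndex := Subgroup.finiteIndex_of_le hAH
  have hfH : Finite (W ⧸ H) := Subgroup.finite_quotient_of_finiteIndex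
  have hfq : Finite (H ⧸ A.subgroupOf H) := Subgroup.finite_quotient_of_finiteIndex
  obtain ⟨l₀, h0, h1⟩ := fact_all (r := r.comp H.subtype) (c := c) (A := A.subgroupOf H)
    (fun w k => hcomm w k) (fun a ha b hb v => hab a ha b hb v) (by
      intro U hU
      obtain ⟨U', h1, h2⟩ := hss U ⟨fun h hh u hu => hU.1 ⟨h, hh⟩ trivial u hu, hU.2⟩
      exact ⟨U', ⟨fun h _ u hu => h1.1 h h.2 u hu, h1.2⟩, h2⟩)
  have hbas : ∀ x ∈ l₀, BasicP r c A (up ψ x) := by
    intro x hx
    obtain ⟨b1, b2, b3⟩ := h0 x hx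
    refine ⟨?_, nil_sub (Subgroup.map_subtype_le x.1), ?_, ?_, ?_⟩
    · intro a ha
      exact ⟨⟨a, hAH ha⟩, b1 (Subgroup.mem_subgroupOf.2 ha), rfl⟩
    · intro a ha
      exact hψ _ ha
    · refine ⟨⟨?_, b2.1.2⟩, b2.2.1, fun U' hU' hst => b2.2.2 U' hU' ⟨?_, hst.2⟩⟩
      · rintro _ ⟨h, hh, rfl⟩ u hu
        exact b2.1.1 h hh u hu
      · intro h hh u hu
        exact hst.1 _ ⟨h, hh, rfl⟩ u hu
    · rintro _ ⟨h, hh, rfl⟩
      exact b3 h hh
  refine ⟨l₀.map (up ψ), ?_, fun w k => ?_⟩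
  · intro x hx
    obtain ⟨y, hy, rfl⟩ := List.mem_map.1 hx
    exact hbas y hy
  rw [List.map_map]
  have e1 : ∀ x ∈ l₀, chP r c (up ψ x) w k = indF H (fun h => ∑ᶠ z : H ⧸ (up (V := V) ψ x).H.subgroupOf H,
      Fs (up ψ x).H (fun h => extF (up ψ x).ψ h * trOn (up ψ x).U (r h * c k)) h (z.out : H)) w := by
    intro x hx
    have hb := hbas x hx
    have hfi : (up (V := V) ψ x).H.FiniteIndex := Subgroup.finiteIndex_of_le hb.le
    have : Finite (W ⧸ (up (V := V) ψ x).H) := Subgroup.finite_quotient_of_finiteIndex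
    exact (indF_trans (M := (up (V := V) ψ x).H) (H := H)
      (φ := fun h => extF (up ψ x).ψ h * trOn (up ψ x).U (r h * c k)) (Subgroup.map_subtype_le x.1)
      (fun h hh a ha => cls_fn hcomm hb.irr.1 (up ψ x).ψ k h hh a ha) w).symm
  have e2 : (l₀.map ((fun x => chP r c x w k) ∘ up ψ)).sum = (l₀.map fun x => indF H
      (fun h => ∑ᶠ z : H ⧸ (up (V := V) ψ x).H.subgroupOf H, Fs (up ψ x).H
        (fun h => extF (up ψ x).ψ h * trOn (up ψ x).U (r h * c k)) h (z.out : H)) w).sum :=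
    congrArg List.sum (List.map_congr_left fun x hx => e1 x hx)
  rw [e2, ← indF_list]
  refine indF_congr (fun h hh => ?_) w
  have e3 := h1 ⟨h, hh⟩ k
  have e4 : LinearMap.trace ℂ V (r h * c k) =
      (l₀.map fun x => indCh (r.comp H.subtype) c x.1 x.2 (⟨h, hh⟩ : H) k).sum := e3
  rw [e4, ← List.sum_map_mul_left]
  congr 1
  exact List.map_congr_left fun x _ => (inner hcomm ψ x hh k).symm

/-- the character of the whole representation as a combination of characters induced by basic pieces -/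
theorem char_list (hcomm : ∀ w k, Commute (r w) (c k)) {A : Subgroup W} [A.Normal] [Finite (W ⧸ A)]
    (hab : ∀ a ∈ A, ∀ b ∈ A, ∀ v, r a (r b v) = r b (r a v))
    (hss : ∀ H, A ≤ H → ∀ U, Stable r c H U → ∃ U', Stable r c H U' ∧ IsCompl U U')
    {B : List (ℤ × Σ H : Subgroup W, (H →* ℂˣ))} (hB : IsResolution A B) :
    ∃ l : List (ℤ × Piece W V), (∀ x ∈ l, x.1 ∈ B.map Prod.fst ∧ BasicP r c A x.2) ∧
      ∀ w k, LinearMap.trace ℂ V (r w * c k) = (l.map fun x => (x.1 : ℂ) * chP r c x.2 w k).sum := by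
  have main : ∀ B : List (ℤ × Σ H : Subgroup W, (H →* ℂˣ)),
      (∀ x ∈ B, A ≤ x.2.1 ∧ Group.IsNilpotent (x.2.1 ⧸ A.subgroupOf x.2.1) ∧
        ∀ a : x.2.1, (a : W) ∈ A → x.2.2 a = 1) →
      ∃ l : List (ℤ × Piece W V), (∀ x ∈ l, x.1 ∈ B.map Prod.fst ∧ BasicP r c A x.2) ∧
        ∀ w k, (B.map fun x => (x.1 : ℂ) * indF x.2.1 (extF x.2.2) w).sum *
          LinearMap.trace ℂ V (r w * c k) = (l.map fun x => (x.1 : ℂ) * chP r c x.2 w k).sum := by
    intro B
    induction B with
    | nil => exact fun _ => ⟨[], by simp, fun w k => by simp⟩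
    | cons b B ih =>
      intro hb
      obtain ⟨l', hl', hs'⟩ := ih fun x hx => hb x (List.mem_cons_of_mem b hx)
      obtain ⟨b1, b2, b3⟩ := hb b List.mem_cons_self
      obtain ⟨l, hl, hs⟩ := one_res hcomm hab b1 b2 (hss b.2.1 b1) b.2.2 b3
      have hAfi : A.FiniteIndex := Subgroup.finiteIndex_of_finite_quotient
      have hHfi : b.2.1.FiniteIndex := Subgroup.finiteIndex_of_le b1
      have hfH : Finite (W ⧸ b.2.1) := Subgroup.finite_quotient_of_finiteIndex
      refine ⟨l.map (fun y => (b.1, y)) ++ l', ?_, fun w k => ?_⟩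
      · intro x hx
        rw [List.map_cons]
        rcases List.mem_append.1 hx with h | h
        · obtain ⟨y, hy, rfl⟩ := List.mem_map.1 h
          exact ⟨List.mem_cons_self, hl y hy⟩
        · exact ⟨List.mem_cons_of_mem _ (hl' x h).1, (hl' x h).2⟩
      · rw [List.map_cons, List.sum_cons, add_mul, hs', List.map_append, List.sum_append, mul_assoc,
          ← indF_mul (extF b.2.2) (fun h => LinearMap.trace ℂ V (r h * c k))
            (fun x y => trace_conj_rc hcomm x y k) w, hs, List.map_map, ← List.sum_map_mul_left]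
        rfl
  obtain ⟨l, hl, hs⟩ := main B hB.grp
  refine ⟨l, hl, fun w k => ?_⟩
  rw [← hs, hB.one, one_mul]

theorem chP_bound (hcomm : ∀ w k, Commute (r w) (c k)) {A : Subgroup W} [A.Normal] [Finite (W ⧸ A)]
    {x : Piece W V} (hx : BasicP r c A x) (w : W) (k : C) {R : ℝ} (hR0 : 0 ≤ R)
    (hR : ∀ μ, Module.End.HasEigenvalue (r w * c k : Module.End ℂ V) μ → ‖μ‖ ≤ R) {n : ℕ} (hn : 0 < n) :
    ‖chP r c x (w ^ n) (k ^ n)‖ ≤ Nat.card (W ⧸ x.H) * Module.finrank ℂ V * R ^ n := by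
  classical
  have hAfi : A.FiniteIndex := Subgroup.finiteIndex_of_finite_quotient
  have hHfi : x.H.FiniteIndex := Subgroup.finiteIndex_of_le hx.le
  have hfH : Finite (W ⧸ x.H) := Subgroup.finite_quotient_of_finiteIndex
  have := Fintype.ofFinite (W ⧸ x.H)
  unfold chP indF
  rw [finsum_eq_sum_of_fintype]
  refine (norm_sum_le _ _).trans ?_
  have hterm : ∀ y : W, ‖Fs x.H (fun h => extF x.ψ h * trOn x.U (r h * c (k ^ n))) (w ^ n) y‖ ≤
      Module.finrank ℂ V * R ^ n := by
    intro y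
    have h1 := Gs_bound hcomm hx.irr.1 w k hR0 hR hn y
    unfold Fs
    unfold Gs at h1
    split_ifs with h
    · rw [if_pos h] at h1
      rw [norm_mul]
      calc _ ≤ 1 * (Module.finrank ℂ V * R ^ n) :=
            mul_le_mul (norm_extF_le x.ψ (fun z => (norm_char x.ψ hx.triv z).le) _) h1 (norm_nonneg _)
              zero_le_one
        _ = _ := one_mul _
    · rw [norm_zero]; positivity
  refine (Finset.sum_le_card_nsmul _ _ _ fun y _ => hterm y.out).trans (le_of_eq ?_)
  rw [Finset.card_univ, nsmul_eq_mul, Nat.card_eq_fintype_card, mul_assoc]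

/-- the factorization of the `L`-function -/
theorem LP_list {q : ι → ℝ} {fr : ι → W} {sat : ι → C} (hcomm : ∀ w k, Commute (r w) (c k))
    (hq : ∀ v, 2 ≤ q v) (hqs : ∀ σ : ℝ, 1 < σ → Summable fun v => q v ^ (-σ)) {κ : ℝ}
    (hκ : ∀ v, ∀ μ, Module.End.HasEigenvalue (r (fr v) * c (sat v) : Module.End ℂ V) μ → ‖μ‖ ≤ q v ^ κ)
    {A : Subgroup W} [A.Normal] [Finite (W ⧸ A)] {s : ℂ} (hs : κ + 1 < s.re)
    (l : List (ℤ × Piece W V)) (hl : ∀ x ∈ l, BasicP r c A x.2) :
    (Summable fun x : ι × ℕ => tm q (fun v n =>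
      (l.map fun y => (y.1 : ℂ) * chP r c y.2 (fr v ^ n) (sat v ^ n)).sum) s x) ∧
    cexp (∑' x : ι × ℕ, tm q (fun v n =>
      (l.map fun y => (y.1 : ℂ) * chP r c y.2 (fr v ^ n) (sat v ^ n)).sum) s x) =
      (l.map fun y => LP q fr sat r c y.2 s ^ y.1).prod := by
  have hq0 : ∀ v, 0 < q v := fun v => by linarith [hq v]
  induction l with
  | nil =>
    have h0 : ∀ x : ι × ℕ, tm q (fun v n => (([] : List (ℤ × Piece W V)).map
        fun y => (y.1 : ℂ) * chP r c y.2 (fr v ^ n) (sat v ^ n)).sum) s x = 0 := by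
      intro x
      unfold tm
      simp
    simp only [h0]
    exact ⟨summable_zero, by simp⟩
  | cons y l ih =>
    obtain ⟨i1, i2⟩ := ih fun x hx => hl x (List.mem_cons_of_mem y hx)
    have hy := hl y List.mem_cons_self
    have hb : Summable (tm q (fun v n => chP r c y.2 (fr v ^ n) (sat v ^ n)) s) := by
      refine tm_summable hq hqs (D := Nat.card (W ⧸ y.2.H) * Module.finrank ℂ V) (by positivity) ?_ hs
      intro v n hn
      have := hq0 v
      exact chP_bound hcomm hy (fr v) (sat v) (by positivity) (hκ v) hn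
    have he : ∀ x : ι × ℕ, tm q (fun v n => ((y :: l).map
        fun y => (y.1 : ℂ) * chP r c y.2 (fr v ^ n) (sat v ^ n)).sum) s x =
        (y.1 : ℂ) * tm q (fun v n => chP r c y.2 (fr v ^ n) (sat v ^ n)) s x +
        tm q (fun v n => (l.map fun y => (y.1 : ℂ) * chP r c y.2 (fr v ^ n) (sat v ^ n)).sum) s x := by
      intro x
      unfold tm
      simp only [List.map_cons, List.sum_cons]
      ring
    simp only [he]
    refine ⟨(hb.mul_left _).add i1, ?_⟩
    rw [(hb.mul_left _).tsum_add i1, Complex.exp_add, i2, List.map_cons, List.prod_cons, tsum_mul_left,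
      Complex.exp_int_mul]
    rfl

/-- integer powers -/
theorem Continues.zpow {L : ℂ → ℂ} (h : Continues L) (n : ℤ) : Continues fun s => L s ^ n := by
  obtain ⟨F, hF, σ, hs⟩ := h
  exact ⟨fun z => F z ^ n, hF.zpow n, σ, fun s hσ => by dsimp only; rw [hs s hσ]⟩

end Pool.Agent.Q12.NL
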