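import Pool.Agent.Q12.NL.Tr
import Pool.Agent.Q63.FL.Main

/-! # Induced characters -/

set_option autoImplicit false

namespace Pool.Agent.Q12.NL

open Pool.Agent.Q63.FL

variable {W C V : Type} [Group W] [Group C] [AddCommGroup V] [Module ℂ V]
  {r : Representation ℂ W V} {c : Representation ℂ C V}

open Classical in
/-- the summand of the character of the induced representation -/
noncomputable def Gs (r : Representation ℂ W V) (c : Representation ℂ C V) (H : Subgroup W)
    (U : Submodule ℂ V) (w : W) (k : C) (y : W) : ℂ :=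
  if y⁻¹ * w * y ∈ H then trOn U (r (y⁻¹ * w * y) * c k) else 0

/-- the character of the representation of `W × C` induced by the representation `U` of `H × C` -/
noncomputable def indCh (r : Representation ℂ W V) (c : Representation ℂ C V) (H : Subgroup W)
    (U : Submodule ℂ V) (w : W) (k : C) : ℂ := ∑ᶠ x : W ⧸ H, Gs r c H U w k x.out

/-- `r a` as an equivalence -/
noncomputable def re (r : Representation ℂ W V) (a : W) : V ≃ₗ[ℂ] V :=
  LinearEquiv.ofLinearMap (r a) (r a⁻¹) (by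
    rw [← Module.End.mul_eq_comp, ← map_mul, mul_inv_cancel, map_one]; rfl) (by
    rw [← Module.End.mul_eq_comp, ← map_mul, inv_mul_cancel, map_one]; rfl)

theorem re_coe (a : W) : ((re r a : V ≃ₗ[ℂ] V) : V →ₗ[ℂ] V) = r a := rfl

theorem re_conj (hcomm : ∀ w k, Commute (r w) (c k)) (a w : W) (k : C) :
    (re r a).conj (r w * c k) = r (a * w * a⁻¹) * c k := by
  rw [LinearEquiv.conj_apply]
  change (r a ∘ₗ (r w * c k)) ∘ₗ (r a⁻¹) = _
  rw [← Module.End.mul_eq_comp, ← Module.End.mul_eq_comp, map_mul, map_mul]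
  have h := (hcomm a⁻¹ k).eq
  rw [mul_assoc, mul_assoc (r w), ← h, ← mul_assoc, ← mul_assoc]

theorem st_map {H : Subgroup W} {U : Submodule ℂ V} (hU : ∀ h ∈ H, ∀ u ∈ U, r h u ∈ U) {a : W}
    (ha : a ∈ H) : U.map (r a) = U := by
  apply le_antisymm
  · rintro _ ⟨u, hu, rfl⟩
    exact hU a ha u hu
  · intro u hu
    refine ⟨r a⁻¹ u, hU _ (H.inv_mem ha) u hu, ?_⟩
    rw [← Module.End.mul_apply, ← map_mul, mul_inv_cancel, map_one]
    rfl

theorem st_mul {H : Subgroup W} {U : Submodule ℂ V} (hU : Stable r c H U) {w : W} (hw : w ∈ H) (k : C) :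
    ∀ u ∈ U, (r w * c k) u ∈ U := fun u hu => hU.1 w hw _ (hU.2 k u hu)

theorem Gs_right (hcomm : ∀ w k, Commute (r w) (c k)) {H : Subgroup W} {U : Submodule ℂ V}
    (hU : Stable r c H U) (w : W) (k : C) (y : W) {a : W} (ha : a ∈ H) :
    Gs r c H U w k (y * a) = Gs r c H U w k y := by
  classical
  unfold Gs
  have e : (y * a)⁻¹ * w * (y * a) = a⁻¹ * (y⁻¹ * w * y) * a := by group
  have h1 : (y * a)⁻¹ * w * (y * a) ∈ H ↔ y⁻¹ * w * y ∈ H := by
    rw [e]
    constructor
    · intro h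
      have := H.mul_mem (H.mul_mem ha h) (H.inv_mem ha)
      have e2 : a * (a⁻¹ * (y⁻¹ * w * y) * a) * a⁻¹ = y⁻¹ * w * y := by group
      rwa [e2] at this
    · intro h
      exact H.mul_mem (H.mul_mem (H.inv_mem ha) h) ha
  by_cases h : y⁻¹ * w * y ∈ H
  · rw [if_pos h, if_pos (h1.2 h), e]
    have h2 := trOn_map (re r a⁻¹) U (f := r (y⁻¹ * w * y) * c k) (st_mul hU h k)
    rw [re_conj hcomm, re_coe, st_map hU.1 (H.inv_mem ha), inv_inv] at h2
    exact h2
  · rw [if_neg h, if_neg (fun hh => h (h1.1 hh))]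

variable [FiniteDimensional ℂ V]

/-- the character of an induced subspace on `H × C` -/
theorem tr_ind (hcomm : ∀ w k, Commute (r w) (c k)) {M H : Subgroup W} (hMH : M ≤ H)
    (hn : ∀ h ∈ H, ∀ m ∈ M, h * m * h⁻¹ ∈ M) [Finite (H ⧸ M.subgroupOf H)] {U₀ U : Submodule ℂ V}
    (hU₀ : Stable r c M U₀) (hind : IsInduced r M H U₀ U) {w : W} (hw : w ∈ H) (k : C) :
    trOn U (r w * c k) = ∑ᶠ z : H ⧸ M.subgroupOf H, Gs r c M U₀ w k (z.out : H) := by
  classical
  have := Fintype.ofFinite (H ⧸ M.subgroupOf H)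
  have hnorm : (M.subgroupOf H).Normal := by
    refine ⟨fun m hm h => ?_⟩
    rw [Subgroup.mem_subgroupOf] at hm ⊢
    exact hn h h.2 m hm
  rw [finsum_eq_sum_of_fintype]
  have hout : ∀ h : H, ∃ m ∈ M, ((QuotientGroup.mk h : H ⧸ M.subgroupOf H).out : W) = h * m := by
    intro h
    obtain ⟨m, hm⟩ := QuotientGroup.mk_out_eq_mul (M.subgroupOf H) h
    refine ⟨m, Subgroup.mem_subgroupOf.1 m.2, ?_⟩
    rw [hm]
    rfl
  have hMst : ∀ m ∈ M, U₀.map (r m) = U₀ := fun m hm => st_map hU₀.1 hm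
  have hNmk : ∀ h : H, U₀.map (r ((QuotientGroup.mk h : H ⧸ M.subgroupOf H).out : H)) = U₀.map (r h) := by
    intro h
    obtain ⟨m, hm, e⟩ := hout h
    rw [e, map_mul_rep, hMst m hm]
  obtain ⟨hsup, hdis⟩ := hind
  set N : H ⧸ M.subgroupOf H → Submodule ℂ V := fun z => U₀.map (r (z.out : H)) with hN
  have hsupN : ⨆ z, N z = U := by
    rw [← hsup]
    apply le_antisymm
    · exact iSup_le fun z => le_iSup₂_of_le (z.out : H) (z.out : H).2 le_rfl
    · refine iSup₂_le fun h hh => ?_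
      rw [← hNmk ⟨h, hh⟩]
      exact le_iSup N (QuotientGroup.mk (⟨h, hh⟩ : H))
  have hindep : iSupIndep N := by
    rw [iSupIndep_def]
    intro z
    have h1 : Disjoint U₀ ((⨆ (j) (_ : j ≠ z), N j).map (r ((z.out : H) : W)⁻¹)) := by
      refine hdis.mono_right ?_
      rw [Submodule.map_iSup]
      refine iSup_le fun j => ?_
      rw [Submodule.map_iSup]
      refine iSup_le fun hj => ?_
      change (U₀.map (r ((j.out : H) : W))).map (r ((z.out : H) : W)⁻¹) ≤ _
      rw [← map_mul_rep]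
      refine le_iSup₂_of_le (((z.out : H) : W)⁻¹ * ((j.out : H) : W)) ⟨?_, ?_⟩ le_rfl
      · exact H.mul_mem (H.inv_mem z.out.2) j.out.2
      · intro hM
        apply hj
        have h2 : (QuotientGroup.mk z.out : H ⧸ M.subgroupOf H) = QuotientGroup.mk j.out := by
          rw [QuotientGroup.eq, Subgroup.mem_subgroupOf]
          exact hM
        rw [QuotientGroup.out_eq', QuotientGroup.out_eq'] at h2
        exact h2.symm
    rw [Submodule.disjoint_def] at h1 ⊢
    rintro _ ⟨u, hu, rfl⟩ hx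
    have h3 := h1 u hu ⟨r ((z.out : H) : W) u, hx, inv_apply' _ u⟩
    rw [h3, map_zero]
  have hperm := trOn_perm N hindep U hsupN (r w * c k)
    (fun z => (QuotientGroup.mk (⟨w, hw⟩ : H) : H ⧸ M.subgroupOf H) * z) (by
      rintro z _ ⟨u, hu, rfl⟩
      have h1 : (QuotientGroup.mk (⟨w, hw⟩ : H) : H ⧸ M.subgroupOf H) * z =
          QuotientGroup.mk (⟨w, hw⟩ * z.out) := by
        rw [QuotientGroup.mk_mul, QuotientGroup.out_eq']
      rw [h1, hN]
      dsimp only
      rw [hNmk]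
      refine ⟨c k u, hU₀.2 k u hu, ?_⟩
      change r (w * (z.out : H)) (c k u) = r w (c k (r ((z.out : H) : W) u))
      have h2 : c k (r ((z.out : H) : W) u) = r ((z.out : H) : W) (c k u) :=
        (congrArg (fun f : V →ₗ[ℂ] V => f u) (hcomm ((z.out : H) : W) k).eq).symm
      rw [h2, mul_ap])
  rw [hperm]
  refine Finset.sum_congr rfl fun z _ => ?_
  unfold Gs
  have hiff : (QuotientGroup.mk (⟨w, hw⟩ : H) : H ⧸ M.subgroupOf H) * z = z ↔
      ((z.out : H) : W)⁻¹ * w * (z.out : H) ∈ M := by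
    conv_lhs => rw [← QuotientGroup.out_eq' z]
    rw [← QuotientGroup.mk_mul, eq_comm, QuotientGroup.eq, Subgroup.mem_subgroupOf, ← mul_assoc]
    exact Iff.rfl
  by_cases h : ((z.out : H) : W)⁻¹ * w * (z.out : H) ∈ M
  · rw [if_pos h, if_pos (hiff.2 h)]
    have h2 := trOn_map (re r ((z.out : H) : W)) U₀ (f := r (((z.out : H) : W)⁻¹ * w * (z.out : H)) * c k)
      (st_mul hU₀ h k)
    rw [re_conj hcomm, re_coe] at h2
    have e : ((z.out : H) : W) * (((z.out : H) : W)⁻¹ * w * (z.out : H)) * ((z.out : H) : W)⁻¹ = w := by group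
    rw [e] at h2
    exact h2
  · rw [if_neg h, if_neg (fun hh => h (hiff.1 hh))]

/-- **Transitivity of induction.** -/
theorem indCh_ind (hcomm : ∀ w k, Commute (r w) (c k)) {M H : Subgroup W} (hMH : M ≤ H)
    (hn : ∀ h ∈ H, ∀ m ∈ M, h * m * h⁻¹ ∈ M) [Finite (W ⧸ M)] {U₀ U : Submodule ℂ V}
    (hU₀ : Stable r c M U₀) (hind : IsInduced r M H U₀ U) (w : W) (k : C) :
    indCh r c H U w k = indCh r c M U₀ w k := by
  classical
  have e := Subgroup.quotientEquivProdOfLE hMH
  have hfp : Finite ((W ⧸ H) × (H ⧸ M.subgroupOf H)) := Finite.of_equiv _ e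
  have f1 : Finite (W ⧸ H) := Finite.of_surjective (fun p : (W ⧸ H) × (H ⧸ M.subgroupOf H) => p.1)
    fun x => ⟨(x, QuotientGroup.mk 1), rfl⟩
  have f2 : Finite (H ⧸ M.subgroupOf H) :=
    Finite.of_surjective (fun p : (W ⧸ H) × (H ⧸ M.subgroupOf H) => p.2)
    fun x => ⟨(QuotientGroup.mk 1, x), rfl⟩
  have := Fintype.ofFinite (W ⧸ H)
  have := Fintype.ofFinite (W ⧸ M)
  have := Fintype.ofFinite (H ⧸ M.subgroupOf H)
  unfold indCh
  rw [finsum_eq_sum_of_fintype, finsum_eq_sum_of_fintype,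
    ← (Subgroup.quotientEquivProdOfLE hMH).symm.sum_comp, Fintype.sum_prod_type]
  refine Finset.sum_congr rfl fun x _ => ?_
  have h1 : ∀ z : H ⧸ M.subgroupOf H,
      Gs r c M U₀ w k ((Subgroup.quotientEquivProdOfLE hMH).symm (x, z)).out =
        Gs r c M U₀ (x.out⁻¹ * w * x.out) k (z.out : H) := by
    intro z
    have h2 : (Subgroup.quotientEquivProdOfLE hMH).symm (x, z) =
        QuotientGroup.mk (x.out * (z.out : H)) := by
      conv_lhs => rw [← QuotientGroup.out_eq' z]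
      rfl
    obtain ⟨m, hm⟩ := QuotientGroup.mk_out_eq_mul M (x.out * ((z.out : H) : W))
    rw [h2, hm, Gs_right hcomm hU₀ w k _ m.2]
    unfold Gs
    have e3 : (x.out * ((z.out : H) : W))⁻¹ * w * (x.out * ((z.out : H) : W)) =
        ((z.out : H) : W)⁻¹ * (x.out⁻¹ * w * x.out) * ((z.out : H) : W) := by group
    rw [e3]
  simp_rw [h1]
  by_cases hx : x.out⁻¹ * w * x.out ∈ H
  · have h3 := tr_ind hcomm hMH hn hU₀ hind hx k
    rw [finsum_eq_sum_of_fintype] at h3
    rw [← h3]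
    unfold Gs
    rw [if_pos hx]
  · unfold Gs
    rw [if_neg hx]
    symm
    refine Finset.sum_eq_zero fun z _ => ?_
    rw [if_neg]
    intro h
    apply hx
    have h4 := H.mul_mem (H.mul_mem z.out.2 (hMH h)) (H.inv_mem z.out.2)
    have e4 : ((z.out : H) : W) * (((z.out : H) : W)⁻¹ * (x.out⁻¹ * w * x.out) * ((z.out : H) : W)) *
        ((z.out : H) : W)⁻¹ = x.out⁻¹ * w * x.out := by group
    rwa [e4] at h4

/-- additivity -/
theorem indCh_sup {H : Subgroup W} [Finite (W ⧸ H)] {U U' : Submodule ℂ V} (hU : Stable r c H U)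
    (hU' : Stable r c H U') (h : Disjoint U U') (w : W) (k : C) :
    indCh r c H (U ⊔ U') w k = indCh r c H U w k + indCh r c H U' w k := by
  classical
  have := Fintype.ofFinite (W ⧸ H)
  unfold indCh
  rw [finsum_eq_sum_of_fintype, finsum_eq_sum_of_fintype, finsum_eq_sum_of_fintype,
    ← Finset.sum_add_distrib]
  refine Finset.sum_congr rfl fun x _ => ?_
  unfold Gs
  split_ifs with hx
  · exact trOn_sup h (st_mul hU hx k) (st_mul hU' hx k)
  · rw [add_zero]

omit [FiniteDimensional ℂ V] in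
/-- the whole space -/
theorem indCh_top (hcomm : ∀ w k, Commute (r w) (c k)) (w : W) (k : C) :
    indCh r c ⊤ ⊤ w k = LinearMap.trace ℂ V (r w * c k) := by
  classical
  have := Fintype.ofFinite (W ⧸ (⊤ : Subgroup W))
  unfold indCh
  rw [finsum_eq_sum_of_fintype]
  have hst : Stable r c ⊤ (⊤ : Submodule ℂ V) := ⟨fun _ _ _ _ => trivial, fun _ _ _ => trivial⟩
  have h1 : ∀ x : W ⧸ (⊤ : Subgroup W), Gs r c ⊤ ⊤ w k x.out = LinearMap.trace ℂ V (r w * c k) := by
    intro x
    have h2 := Gs_right hcomm hst w k x.out (a := (x.out)⁻¹) (Subgroup.mem_top _)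
    rw [mul_inv_cancel] at h2
    rw [← h2]
    unfold Gs
    rw [if_pos (Subgroup.mem_top _), trOn_top]
    simp
  simp_rw [h1]
  rw [Finset.sum_const, Finset.card_univ]
  have : Fintype.card (W ⧸ (⊤ : Subgroup W)) = 1 := by
    rw [← Nat.card_eq_fintype_card]
    exact Subgroup.index_top
  rw [this, one_smul]

end Pool.Agent.Q12.NL
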