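import Pool.Agent.Q12.NL.Ch
import Pool.Agent.Q259.NW.Eig

/-! # Euler products and their logarithms -/

set_option autoImplicit false

namespace Pool.Agent.Q12.NL

open Pool.Agent.Q63.FL Complex

/-- the norm of a trace -/
theorem norm_trace_le {X : Type*} [AddCommGroup X] [Module ℂ X] [FiniteDimensional ℂ X]
    (f : Module.End ℂ X) {R : ℝ} (hR : ∀ μ, f.HasEigenvalue μ → ‖μ‖ ≤ R) :
    ‖LinearMap.trace ℂ X f‖ ≤ Module.finrank ℂ X * R := by
  rw [Module.End.trace_eq_sum_roots_charpoly_of_splits (IsAlgClosed.splits _)]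
  have h1 : ∀ μ ∈ f.charpoly.roots, ‖μ‖ ≤ R := fun μ hμ =>
    hR μ ((Module.End.hasEigenvalue_iff_isRoot_charpoly f μ).2 (Polynomial.mem_roots'.1 hμ).2)
  refine (norm_multiset_sum_le _).trans ?_
  refine (Multiset.sum_le_card_nsmul _ R ?_).trans (le_of_eq ?_)
  · intro x hx
    obtain ⟨μ, hμ, rfl⟩ := Multiset.mem_map.1 hx
    exact h1 μ hμ
  · rw [Multiset.card_map, nsmul_eq_mul, ← (IsAlgClosed.splits f.charpoly).natDegree_eq_card_roots,
      LinearMap.charpoly_natDegree]

variable {W C V : Type} [Group W] [Group C] [AddCommGroup V] [Module ℂ V] [FiniteDimensional ℂ V]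
  {r : Representation ℂ W V} {c : Representation ℂ C V}

omit [FiniteDimensional ℂ V] in
theorem rc_pow (hcomm : ∀ w k, Commute (r w) (c k)) (w : W) (k : C) (n : ℕ) :
    r (w ^ n) * c (k ^ n) = (r w * c k) ^ n := by
  rw [map_pow, map_pow, (hcomm w k).mul_pow]

theorem Gs_bound (hcomm : ∀ w k, Commute (r w) (c k)) {H : Subgroup W} {U : Submodule ℂ V}
    (hU : Stable r c H U) (w : W) (k : C) {R : ℝ} (hR0 : 0 ≤ R)
    (hR : ∀ μ, Module.End.HasEigenvalue (r w * c k : Module.End ℂ V) μ → ‖μ‖ ≤ R) {n : ℕ} (hn : 0 < n) (y : W) :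
    ‖Gs r c H U (w ^ n) (k ^ n) y‖ ≤ Module.finrank ℂ V * R ^ n := by
  classical
  unfold Gs
  split_ifs with h
  swap
  · rw [norm_zero]; positivity
  have hst := st_mul hU h (k ^ n)
  rw [trOn_eq hst]
  refine (norm_trace_le _ (R := R ^ n) ?_).trans ?_
  · intro μ hμ
    obtain ⟨u, hu⟩ := hμ.exists_hasEigenvector
    -- an eigenvector of the power
    have h1 : (r (y⁻¹ * w ^ n * y) * c (k ^ n)) (u : V) = μ • (u : V) :=
      congrArg Subtype.val hu.apply_eq_smul
    have hconj : (re r y).conj (r (y⁻¹ * w ^ n * y) * c (k ^ n)) = (r w * c k) ^ n := by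
      rw [re_conj hcomm, ← rc_pow hcomm]
      congr 2
      group
    have h2 : ((r w * c k) ^ n : Module.End ℂ V) (re r y (u : V)) = μ • re r y (u : V) := by
      rw [← hconj, LinearEquiv.conj_apply]
      simp only [LinearMap.coe_comp, LinearEquiv.coe_coe, Function.comp_apply, LinearEquiv.symm_apply_apply]
      rw [h1, map_smul]
    have hne : re r y (u : V) ≠ 0 := by
      intro h0
      apply hu.2
      apply Subtype.ext
      exact (re r y).map_eq_zero_iff.1 h0
    have h3 : Module.End.HasEigenvalue ((r w * c k) ^ n : Module.End ℂ V) μ :=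
      Module.End.hasEigenvalue_of_hasEigenvector ⟨Module.End.mem_eigenspace_iff.2 h2, hne⟩
    rw [Module.End.hasEigenvalue_iff_mem_spectrum, spectrum.map_pow_of_pos _ hn] at h3
    obtain ⟨α, hα, rfl⟩ := h3
    rw [← Module.End.hasEigenvalue_iff_mem_spectrum] at hα
    dsimp only
    rw [norm_pow]
    exact pow_le_pow_left₀ (norm_nonneg _) (hR α hα) n
  · have : (Module.finrank ℂ U : ℝ) ≤ Module.finrank ℂ V := by exact_mod_cast Submodule.finrank_le U
    gcongr

theorem indCh_bound (hcomm : ∀ w k, Commute (r w) (c k)) {H : Subgroup W} [Finite (W ⧸ H)]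
    {U : Submodule ℂ V} (hU : Stable r c H U) (w : W) (k : C) {R : ℝ} (hR0 : 0 ≤ R)
    (hR : ∀ μ, Module.End.HasEigenvalue (r w * c k : Module.End ℂ V) μ → ‖μ‖ ≤ R) {n : ℕ} (hn : 0 < n) :
    ‖indCh r c H U (w ^ n) (k ^ n)‖ ≤ Nat.card (W ⧸ H) * Module.finrank ℂ V * R ^ n := by
  classical
  have := Fintype.ofFinite (W ⧸ H)
  unfold indCh
  rw [finsum_eq_sum_of_fintype]
  refine (norm_sum_le _ _).trans ?_
  refine (Finset.sum_le_card_nsmul _ _ _ fun x _ => Gs_bound hcomm hU w k hR0 hR hn x.out).trans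
    (le_of_eq ?_)
  rw [Finset.card_univ, nsmul_eq_mul, Nat.card_eq_fintype_card, mul_assoc]

/-! ### the Dirichlet series -/

variable {ι : Type}

/-- the terms of the logarithm of an Euler product -/
noncomputable def tm (q : ι → ℝ) (θ : ι → ℕ → ℂ) (s : ℂ) (x : ι × ℕ) : ℂ :=
  θ x.1 (x.2 + 1) / ((x.2 : ℂ) + 1) * (q x.1 : ℂ) ^ (-(((x.2 : ℂ) + 1) * s))

theorem norm_cpow {q : ℝ} (hq : 2 ≤ q) (n : ℕ) (s : ℂ) :
    ‖(q : ℂ) ^ (-(((n : ℂ) + 1) * s))‖ = (q ^ (-s.re)) ^ (n + 1) := by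
  have hq0 : 0 < q := by linarith
  rw [Complex.norm_cpow_eq_rpow_re_of_pos hq0, ← Real.rpow_natCast, ← Real.rpow_mul hq0.le]
  congr 1
  have : (((n : ℂ) + 1) * s).re = ((n : ℝ) + 1) * s.re := by
    have h1 : ((n : ℂ) + 1) = (((n : ℝ) + 1 : ℝ) : ℂ) := by push_cast; rfl
    rw [h1, Complex.re_ofReal_mul]
  rw [Complex.neg_re, this]
  push_cast
  ring

theorem tm_bound {q : ι → ℝ} (hq : ∀ v, 2 ≤ q v) {θ : ι → ℕ → ℂ} {D κ : ℝ} (hD : 0 ≤ D)
    (hθ : ∀ v n, 0 < n → ‖θ v n‖ ≤ D * (q v ^ κ) ^ n) {s : ℂ} (hs : κ + 1 < s.re) (x : ι × ℕ) :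
    ‖tm q θ s x‖ ≤ D * (q x.1 ^ (-(s.re - κ)) * (1 / 2) ^ x.2) := by
  have hq0 : 0 < q x.1 := by linarith [hq x.1]
  unfold tm
  rw [norm_mul, norm_div, norm_cpow (hq x.1)]
  have h1 : ‖((x.2 : ℂ) + 1)‖ = (x.2 : ℝ) + 1 := by
    rw [show ((x.2 : ℂ) + 1) = (((x.2 + 1 : ℕ)) : ℂ) by push_cast; rfl, Complex.norm_natCast]
    push_cast
    rfl
  rw [h1]
  have h2 : q x.1 ^ (-(s.re - κ)) ≤ 1 / 2 := by
    calc q x.1 ^ (-(s.re - κ)) ≤ q x.1 ^ (-1 : ℝ) :=
          Real.rpow_le_rpow_of_exponent_le (by linarith [hq x.1]) (by linarith)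
      _ = (q x.1)⁻¹ := Real.rpow_neg_one _
      _ ≤ 1 / 2 := by
          rw [one_div]
          exact inv_anti₀ (by norm_num) (hq x.1)
  have h3 : 0 ≤ q x.1 ^ (-(s.re - κ)) := by positivity
  have h4 : (q x.1 ^ κ) * q x.1 ^ (-s.re) = q x.1 ^ (-(s.re - κ)) := by
    rw [← Real.rpow_add hq0]
    congr 1
    ring
  calc ‖θ x.1 (x.2 + 1)‖ / ((x.2 : ℝ) + 1) * (q x.1 ^ (-s.re)) ^ (x.2 + 1)
      ≤ ‖θ x.1 (x.2 + 1)‖ * (q x.1 ^ (-s.re)) ^ (x.2 + 1) := by
        refine mul_le_mul_of_nonneg_right ?_ (by positivity)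
        exact div_le_self (norm_nonneg _) (by linarith [Nat.cast_nonneg (α := ℝ) x.2])
    _ ≤ D * (q x.1 ^ κ) ^ (x.2 + 1) * (q x.1 ^ (-s.re)) ^ (x.2 + 1) := by
        refine mul_le_mul_of_nonneg_right (hθ _ _ (Nat.succ_pos _)) (by positivity)
    _ = D * (q x.1 ^ (-(s.re - κ))) ^ (x.2 + 1) := by
        rw [mul_assoc, ← mul_pow, h4]
    _ = D * (q x.1 ^ (-(s.re - κ)) * (q x.1 ^ (-(s.re - κ))) ^ x.2) := by ring
    _ ≤ D * (q x.1 ^ (-(s.re - κ)) * (1 / 2) ^ x.2) := by gcongr

theorem tm_summable {q : ι → ℝ} (hq : ∀ v, 2 ≤ q v) (hqs : ∀ σ : ℝ, 1 < σ → Summable fun v => q v ^ (-σ))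
    {θ : ι → ℕ → ℂ} {D κ : ℝ} (hD : 0 ≤ D) (hθ : ∀ v n, 0 < n → ‖θ v n‖ ≤ D * (q v ^ κ) ^ n) {s : ℂ}
    (hs : κ + 1 < s.re) : Summable (tm q θ s) := by
  refine Summable.of_norm_bounded ?_ (tm_bound hq hD hθ hs)
  refine Summable.mul_left D ?_
  have h1 := (hqs (s.re - κ) (by linarith)).mul_of_nonneg
    (summable_geometric_of_lt_one (r := (1 / 2 : ℝ)) (by norm_num) (by norm_num))
    (fun v => by
      have : 0 < q v := by linarith [hq v]
      show (0 : ℝ) ≤ _
      positivity) (fun n => by show (0 : ℝ) ≤ _; positivity)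
  exact h1

/-- the Euler factor -/
theorem euler_factor {X : Type*} [AddCommGroup X] [Module ℂ X] [FiniteDimensional ℂ X]
    (f : Module.End ℂ X) {t : ℂ} (ht : t ≠ 0) (h : ∀ μ, f.HasEigenvalue μ → ‖μ * t‖ < 1) :
    HasSum (fun n : ℕ => LinearMap.trace ℂ X (f ^ (n + 1)) / ((n : ℂ) + 1) * t ^ (n + 1))
      (-(f.charpoly.roots.map fun α => log (1 - α * t)).sum) ∧
    (LinearMap.det (1 - t • f))⁻¹ = cexp (-(f.charpoly.roots.map fun α => log (1 - α * t)).sum) := by
  have hroot : ∀ α ∈ f.charpoly.roots, ‖α * t‖ < 1 := fun α hα =>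
    h α ((Module.End.hasEigenvalue_iff_isRoot_charpoly f α).2 (Polynomial.mem_roots'.1 hα).2)
  constructor
  · have h1 : ∀ n : ℕ, LinearMap.trace ℂ X (f ^ (n + 1)) / ((n : ℂ) + 1) * t ^ (n + 1) =
        (f.charpoly.roots.map fun α => (α * t) ^ (n + 1) / ((n : ℂ) + 1)).sum := by
      intro n
      rw [Pool.Agent.Q259.NW.trace_pow_alg]
      rw [← Multiset.sum_map_div, ← Multiset.sum_map_mul_right]
      congr 1
      refine Multiset.map_congr rfl fun α _ => ?_
      rw [mul_pow]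
      ring
    simp_rw [h1]
    have h2 : ∀ s : Multiset ℂ, (∀ α ∈ s, ‖α * t‖ < 1) →
        HasSum (fun n : ℕ => (s.map fun α => (α * t) ^ (n + 1) / ((n : ℂ) + 1)).sum)
          (-(s.map fun α => log (1 - α * t)).sum) := by
      intro s
      induction s using Multiset.induction_on with
      | empty => intro _; simp [hasSum_zero]
      | cons a s ih =>
        intro hs
        simp only [Multiset.map_cons, Multiset.sum_cons]
        rw [neg_add]
        exact (hasSum_taylorSeries_neg_log' (hs a (Multiset.mem_cons_self a s))).add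
          (ih fun α hα => hs α (Multiset.mem_cons_of_mem hα))
    exact h2 _ hroot
  · have h3 : LinearMap.det (1 - t • f) = (f.charpoly.roots.map fun α => 1 - α * t).prod := by
      have h4 : (1 - t • f) = t • (algebraMap ℂ (Module.End ℂ X) t⁻¹ - f) := by
        rw [smul_sub, Algebra.algebraMap_eq_smul_one, smul_smul, mul_inv_cancel₀ ht, one_smul]
      have h5 : LinearMap.det (algebraMap ℂ (Module.End ℂ X) t⁻¹ - f) = f.charpoly.eval t⁻¹ := by
        rw [LinearMap.eval_charpoly]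
      rw [h4, LinearMap.det_smul, h5]
      have hsp := IsAlgClosed.splits f.charpoly
      have hprod : f.charpoly = (f.charpoly.roots.map fun a => Polynomial.X - Polynomial.C a).prod :=
        hsp.eq_prod_roots_of_monic (LinearMap.charpoly_monic f)
      have hcard : Module.finrank ℂ X = f.charpoly.roots.card := by
        rw [← hsp.natDegree_eq_card_roots, LinearMap.charpoly_natDegree]
      have h6 : f.charpoly.eval t⁻¹ = (f.charpoly.roots.map fun a => t⁻¹ - a).prod := by
        conv_lhs => rw [hprod]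
        rw [Polynomial.eval_multiset_prod, Multiset.map_map]
        congr 1
        refine Multiset.map_congr rfl fun a _ => ?_
        simp
      rw [h6, hcard]
      have h8 : ∀ s : Multiset ℂ, t ^ s.card * (s.map fun a => t⁻¹ - a).prod =
          (s.map fun a => 1 - a * t).prod := by
        intro s
        induction s using Multiset.induction_on with
        | empty => simp
        | cons a s ih =>
          simp only [Multiset.map_cons, Multiset.prod_cons, Multiset.card_cons]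
          rw [← ih]
          have h9 : 1 - a * t = t * (t⁻¹ - a) := by
            rw [mul_sub, mul_inv_cancel₀ ht]
            ring
          rw [h9]
          ring
      exact h8 _
    rw [h3]
    have h7 : ∀ s : Multiset ℂ, (∀ α ∈ s, ‖α * t‖ < 1) →
        ((s.map fun α => 1 - α * t).prod)⁻¹ = cexp (-(s.map fun α => log (1 - α * t)).sum) := by
      intro s
      induction s using Multiset.induction_on with
      | empty => intro _; simp
      | cons a s ih =>
        intro hs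
        simp only [Multiset.map_cons, Multiset.sum_cons, Multiset.prod_cons]
        rw [mul_inv, neg_add, Complex.exp_add, ih fun α hα => hs α (Multiset.mem_cons_of_mem hα)]
        congr 1
        have hne : (1 : ℂ) - a * t ≠ 0 := by
          intro h0
          have h1 := hs a (Multiset.mem_cons_self a s)
          rw [← sub_eq_zero.1 h0, norm_one] at h1
          exact lt_irrefl _ h1
        rw [Complex.exp_neg, Complex.exp_log hne]
    exact h7 _ hroot

end Pool.Agent.Q12.NL
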