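import Pool.Agent.Q12.NL.Ls

/-! # Meromorphic continuation for representations of nilpotent type -/

set_option autoImplicit false

namespace Pool.Agent.Q12.NL

open Pool.Agent.Q63.FL Complex

/-- A function which is given in a right half-plane has a meromorphic continuation to the whole plane. -/
def Continues (L : ℂ → ℂ) : Prop :=
  ∃ F : ℂ → ℂ, MeromorphicOn F Set.univ ∧ ∃ σ : ℝ, ∀ s : ℂ, σ < s.re → F s = L s

variable {W C V : Type} [Group W] [Group C] [AddCommGroup V] [Module ℂ V]
  {r : Representation ℂ W V} {c : Representation ℂ C V} {ι : Type}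

/-- The `L`-function of the representation `U` of `H × C`, that is of the representation of `W × C` which
it induces, as the exponential of its logarithm
`∑_v ∑_n (character at (Frob_v, sat_v)^n) q_v^(-n s) / n`. -/
noncomputable def LInd (q : ι → ℝ) (fr : ι → W) (sat : ι → C) (r : Representation ℂ W V)
    (c : Representation ℂ C V) (H : Subgroup W) (U : Submodule ℂ V) (s : ℂ) : ℂ :=
  cexp (∑' x : ι × ℕ, tm q (fun v n => indCh r c H U (fr v ^ n) (sat v ^ n)) s x)

variable [FiniteDimensional ℂ V]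

/-- **The Euler product.** -/
theorem LInd_top {q : ι → ℝ} {fr : ι → W} {sat : ι → C} (hcomm : ∀ w k, Commute (r w) (c k))
    (hq : ∀ v, 2 ≤ q v) (hqs : ∀ σ : ℝ, 1 < σ → Summable fun v => q v ^ (-σ)) {κ : ℝ}
    (hκ : ∀ v, ∀ μ, Module.End.HasEigenvalue (r (fr v) * c (sat v) : Module.End ℂ V) μ → ‖μ‖ ≤ q v ^ κ)
    {s : ℂ} (hs : κ + 1 < s.re) :
    LInd q fr sat r c ⊤ ⊤ s =
      ∏' v, (LinearMap.det (1 - (q v : ℂ) ^ (-s) • (r (fr v) * c (sat v) : Module.End ℂ V)))⁻¹ := by
  classical
  have hq0 : ∀ v, 0 < q v := fun v => by linarith [hq v]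
  have hfin : Finite (W ⧸ (⊤ : Subgroup W)) := inferInstance
  have hst : Stable r c ⊤ (⊤ : Submodule ℂ V) := ⟨fun _ _ _ _ => trivial, fun _ _ _ => trivial⟩
  have hsum : Summable (tm q (fun v n => indCh r c ⊤ ⊤ (fr v ^ n) (sat v ^ n)) s) := by
    refine tm_summable hq hqs (D := Nat.card (W ⧸ (⊤ : Subgroup W)) * Module.finrank ℂ V)
      (by positivity) ?_ hs
    intro v n hn
    have := hq0 v
    exact indCh_bound hcomm hst (fr v) (sat v) (by positivity) (hκ v) hn
  have hfac : ∀ v, HasSum (fun n : ℕ => tm q (fun v n => indCh r c ⊤ ⊤ (fr v ^ n) (sat v ^ n)) s (v, n))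
      (-((r (fr v) * c (sat v) : Module.End ℂ V).charpoly.roots.map
        fun α => log (1 - α * (q v : ℂ) ^ (-s))).sum) ∧
      (LinearMap.det (1 - (q v : ℂ) ^ (-s) • (r (fr v) * c (sat v) : Module.End ℂ V)))⁻¹ =
        cexp (-((r (fr v) * c (sat v) : Module.End ℂ V).charpoly.roots.map
          fun α => log (1 - α * (q v : ℂ) ^ (-s))).sum) := by
    intro v
    have hqc : (q v : ℂ) ≠ 0 := by exact_mod_cast (hq0 v).ne'
    have ht : (q v : ℂ) ^ (-s) ≠ 0 := by
      rw [Ne, Complex.cpow_eq_zero_iff]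
      exact fun h => hqc h.1
    obtain ⟨h1, h2⟩ := euler_factor (r (fr v) * c (sat v) : Module.End ℂ V) ht (fun μ hμ => by
      rw [norm_mul, Complex.norm_cpow_eq_rpow_re_of_pos (hq0 v), Complex.neg_re]
      have h3 : q v ^ κ * q v ^ (-s.re) < 1 := by
        rw [← Real.rpow_add (hq0 v)]
        exact Real.rpow_lt_one_of_one_lt_of_neg (by linarith [hq v]) (by linarith)
      refine lt_of_le_of_lt ?_ h3
      have := hq0 v
      exact mul_le_mul_of_nonneg_right (hκ v μ hμ) (by positivity))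
    refine ⟨?_, h2⟩
    convert h1 using 1
    funext n
    unfold tm
    dsimp only
    rw [indCh_top hcomm, rc_pow hcomm, ← Complex.cpow_nat_mul]
    congr 2
    push_cast
    ring
  have h4 : HasSum (fun v => -((r (fr v) * c (sat v) : Module.End ℂ V).charpoly.roots.map
      fun α => log (1 - α * (q v : ℂ) ^ (-s))).sum)
      (∑' x : ι × ℕ, tm q (fun v n => indCh r c ⊤ ⊤ (fr v ^ n) (sat v ^ n)) s x) :=
    hsum.hasSum.prod_fiberwise fun v => (hfac v).1
  unfold LInd
  have h5 := h4.cexp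
  rw [← h5.tprod_eq]
  refine tprod_congr fun v => ?_
  rw [(hfac v).2]
  rfl

/-- The basic pairs: `U` is an irreducible representation of `H × C` on which `H` acts by scalars. -/
def Basic (r : Representation ℂ W V) (c : Representation ℂ C V) (A : Subgroup W)
    (x : Subgroup W × Submodule ℂ V) : Prop :=
  A ≤ x.1 ∧ Irr r c x.1 x.2 ∧ ∀ h ∈ x.1, ∃ z : ℂ, ∀ u ∈ x.2, r h u = z • u

/-- the character of the whole representation is a sum of characters induced by basic pairs -/
theorem fact_all (hcomm : ∀ w k, Commute (r w) (c k)) {A : Subgroup W} [A.Normal] [Finite (W ⧸ A)]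
    [Group.IsNilpotent (W ⧸ A)] (hab : ∀ a ∈ A, ∀ b ∈ A, ∀ v, r a (r b v) = r b (r a v))
    (hss : ∀ U, Stable r c ⊤ U → ∃ U', Stable r c ⊤ U' ∧ IsCompl U U') :
    ∃ l : List (Subgroup W × Submodule ℂ V), (∀ x ∈ l, Basic r c A x) ∧
      ∀ w k, LinearMap.trace ℂ V (r w * c k) = (l.map fun x => indCh r c x.1 x.2 w k).sum := by
  classical
  have hfin : ∀ H : Subgroup W, A ≤ H → Finite (W ⧸ H) := by
    intro H hH
    have hA : A.FiniteIndex := Subgroup.finiteIndex_of_finite_quotient
    have : H.FiniteIndex := Subgroup.finiteIndex_of_le hH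
    exact Subgroup.finite_quotient_of_finiteIndex
  have haut : IsAutomorphy r c A fun H U => A ≤ H ∧ Stable r c H U ∧
      ∃ l : List (Subgroup W × Submodule ℂ V), (∀ x ∈ l, Basic r c A x) ∧
        ∀ w k, indCh r c H U w k = (l.map fun x => indCh r c x.1 x.2 w k).sum := by
    refine ⟨fun H U hAH hU hsc => ⟨hAH, hU.1, [(H, U)], ?_, fun w k => by simp⟩, ?_, ?_⟩
    · intro x hx
      rw [List.mem_singleton] at hx
      subst hx
      exact ⟨hAH, hU, hsc⟩
    · rintro H M U U₀ hAM hMH hn - hst₀ hst hind ⟨-, -, l, hl, hs⟩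
      have := hfin M hAM
      exact ⟨hAM.trans hMH, hst, l, hl, fun w k => by rw [indCh_ind hcomm hMH hn hst₀ hind, hs]⟩
    · rintro H U U' ⟨hAH, hU, l, hl, hs⟩ ⟨-, hU', l', hl', hs'⟩ hdis
      have := hfin H hAH
      refine ⟨hAH, ⟨fun h hh u hu => ?_, fun k u hu => ?_⟩, l ++ l', ?_, fun w k => ?_⟩
      · obtain ⟨x, hx, y, hy, rfl⟩ := Submodule.mem_sup.1 hu
        rw [map_add]
        exact Submodule.add_mem_sup (hU.1 h hh x hx) (hU'.1 h hh y hy)
      · obtain ⟨x, hx, y, hy, rfl⟩ := Submodule.mem_sup.1 hu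
        rw [map_add]
        exact Submodule.add_mem_sup (hU.2 k x hx) (hU'.2 k y hy)
      · intro x hx
        rcases List.mem_append.1 hx with h | h
        · exact hl x h
        · exact hl' x h
      · rw [indCh_sup hU hU' hdis, hs, hs', List.map_append, List.sum_append]
  by_cases hV : (⊤ : Submodule ℂ V) = ⊥
  · refine ⟨[], by simp, fun w k => ?_⟩
    have hsub : Subsingleton V := by
      refine ⟨fun x y => ?_⟩
      have hx : x ∈ (⊥ : Submodule ℂ V) := hV ▸ Submodule.mem_top
      have hy : y ∈ (⊥ : Submodule ℂ V) := hV ▸ Submodule.mem_top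
      rw [Submodule.mem_bot] at hx hy
      rw [hx, hy]
    have : (r w * c k : Module.End ℂ V) = 0 := LinearMap.ext fun v => Subsingleton.elim _ _
    rw [this, map_zero]
    simp
  · have hst : Stable r c ⊤ (⊤ : Submodule ℂ V) := ⟨fun _ _ _ _ => trivial, fun _ _ _ => trivial⟩
    obtain ⟨-, -, l, hl, hs⟩ := all_aut hcomm hab haut hss _ le_rfl hst hV
    exact ⟨l, hl, fun w k => by rw [← indCh_top hcomm, hs]⟩

/-- the factorization of the `L`-function -/
theorem LInd_list {q : ι → ℝ} {fr : ι → W} {sat : ι → C} (hcomm : ∀ w k, Commute (r w) (c k))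
    (hq : ∀ v, 2 ≤ q v) (hqs : ∀ σ : ℝ, 1 < σ → Summable fun v => q v ^ (-σ)) {κ : ℝ}
    (hκ : ∀ v, ∀ μ, Module.End.HasEigenvalue (r (fr v) * c (sat v) : Module.End ℂ V) μ → ‖μ‖ ≤ q v ^ κ)
    {A : Subgroup W} [Finite (W ⧸ A)] {s : ℂ} (hs : κ + 1 < s.re)
    (l : List (Subgroup W × Submodule ℂ V)) (hl : ∀ x ∈ l, Basic r c A x) :
    (Summable fun x : ι × ℕ => tm q (fun v n => (l.map fun y => indCh r c y.1 y.2 (fr v ^ n) (sat v ^ n)).sum) s x) ∧
    cexp (∑' x : ι × ℕ, tm q (fun v n => (l.map fun y => indCh r c y.1 y.2 (fr v ^ n) (sat v ^ n)).sum) s x) =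
      (l.map fun y => LInd q fr sat r c y.1 y.2 s).prod := by
  have hq0 : ∀ v, 0 < q v := fun v => by linarith [hq v]
  induction l with
  | nil =>
    have h0 : ∀ x : ι × ℕ, tm q (fun v n => (([] : List (Subgroup W × Submodule ℂ V)).map
        fun y => indCh r c y.1 y.2 (fr v ^ n) (sat v ^ n)).sum) s x = 0 := by
      intro x
      unfold tm
      simp
    simp only [h0]
    exact ⟨summable_zero, by simp⟩
  | cons y l ih =>
    obtain ⟨i1, i2⟩ := ih fun x hx => hl x (List.mem_cons_of_mem y hx)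
    obtain ⟨hAy, hy, -⟩ := hl y List.mem_cons_self
    have hA : A.FiniteIndex := Subgroup.finiteIndex_of_finite_quotient
    have : y.1.FiniteIndex := Subgroup.finiteIndex_of_le hAy
    have hfin : Finite (W ⧸ y.1) := Subgroup.finite_quotient_of_finiteIndex
    have hb : Summable (tm q (fun v n => indCh r c y.1 y.2 (fr v ^ n) (sat v ^ n)) s) := by
      refine tm_summable hq hqs (D := Nat.card (W ⧸ y.1) * Module.finrank ℂ V) (by positivity) ?_ hs
      intro v n hn
      have := hq0 v
      exact indCh_bound hcomm hy.1 (fr v) (sat v) (by positivity) (hκ v) hn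
    have he : ∀ x : ι × ℕ, tm q (fun v n => ((y :: l).map
        fun y => indCh r c y.1 y.2 (fr v ^ n) (sat v ^ n)).sum) s x =
        tm q (fun v n => indCh r c y.1 y.2 (fr v ^ n) (sat v ^ n)) s x +
        tm q (fun v n => (l.map fun y => indCh r c y.1 y.2 (fr v ^ n) (sat v ^ n)).sum) s x := by
      intro x
      unfold tm
      simp only [List.map_cons, List.sum_cons]
      ring
    simp only [he]
    refine ⟨hb.add i1, ?_⟩
    rw [hb.tsum_add i1, Complex.exp_add, i2, List.map_cons, List.prod_cons]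
    rfl

/-- a finite product of functions with a meromorphic continuation -/
theorem Continues.list {l : List (ℂ → ℂ)} (h : ∀ L ∈ l, Continues L) :
    Continues fun s => (l.map fun L => L s).prod := by
  induction l with
  | nil => exact ⟨fun _ => 1, fun z _ => analyticAt_const.meromorphicAt, 0, fun s _ => by simp⟩
  | cons L l ih =>
    obtain ⟨F, hF, σ, hs⟩ := h L List.mem_cons_self
    obtain ⟨F', hF', σ', hs'⟩ := ih fun L' hL' => h L' (List.mem_cons_of_mem L hL')
    refine ⟨fun z => F z * F' z, hF.mul hF', max σ σ', fun s hσ => ?_⟩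
    dsimp only
    rw [hs s (lt_of_le_of_lt (le_max_left _ _) hσ), hs' s (lt_of_le_of_lt (le_max_right _ _) hσ),
      List.map_cons, List.prod_cons]

end Pool.Agent.Q12.NL
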