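import Mathlib

/-! # Traces on stable subspaces -/

set_option autoImplicit false

namespace Pool.Agent.Q12.NL

open Module DirectSum

variable {V : Type*} [AddCommGroup V] [Module ℂ V] [FiniteDimensional ℂ V]

open Classical in
/-- the trace of the restriction of `f` to the `f`-stable subspace `U` -/
noncomputable def trOn (U : Submodule ℂ V) (f : Module.End ℂ V) : ℂ :=
  if h : ∀ u ∈ U, f u ∈ U then LinearMap.trace ℂ U (f.restrict h) else 0

omit [FiniteDimensional ℂ V] in
theorem trOn_eq {U : Submodule ℂ V} {f : Module.End ℂ V} (h : ∀ u ∈ U, f u ∈ U) :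
    trOn U f = LinearMap.trace ℂ U (f.restrict h) := dif_pos h

omit [FiniteDimensional ℂ V] in
theorem trOn_top (f : Module.End ℂ V) : trOn ⊤ f = LinearMap.trace ℂ V f := by
  rw [trOn_eq (fun _ _ => Submodule.mem_top)]
  have : f = (LinearEquiv.ofTop (⊤ : Submodule ℂ V) rfl).conj (f.restrict (fun _ _ => Submodule.mem_top)) := by
    refine LinearMap.ext fun v => rfl
  conv_rhs => rw [this]
  rw [LinearMap.trace_conj']

omit [FiniteDimensional ℂ V] in
theorem trOn_map (e : V ≃ₗ[ℂ] V) (U : Submodule ℂ V) {f : Module.End ℂ V} (h : ∀ u ∈ U, f u ∈ U) :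
    trOn (U.map (e : V →ₗ[ℂ] V)) (e.conj f) = trOn U f := by
  have h' : ∀ u ∈ U.map (e : V →ₗ[ℂ] V), e.conj f u ∈ U.map (e : V →ₗ[ℂ] V) := by
    rintro _ ⟨u, hu, rfl⟩
    refine ⟨f u, h u hu, ?_⟩
    simp [LinearEquiv.conj_apply]
  rw [trOn_eq h, trOn_eq h']
  have : (e.conj f).restrict h' = (e.submoduleMap U).conj (f.restrict h) := by
    refine LinearMap.ext fun x => ?_
    obtain ⟨⟨u, hu⟩, rfl⟩ := (e.submoduleMap U).surjective x
    apply Subtype.ext
    simp [LinearEquiv.conj_apply, LinearMap.restrict_apply]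
  rw [this, LinearMap.trace_conj']

/-- **The trace of an endomorphism which permutes the summands of a direct sum.** -/
theorem trOn_perm {ι : Type*} [Fintype ι] [DecidableEq ι] (N : ι → Submodule ℂ V) (hN : iSupIndep N)
    (U : Submodule ℂ V) (hU : ⨆ i, N i = U) (f : Module.End ℂ V) (σ : ι → ι)
    (hf : ∀ i, ∀ u ∈ N i, f u ∈ N (σ i)) :
    trOn U f = ∑ i, if σ i = i then trOn (N i) f else 0 := by
  classical
  have hle : ∀ i, N i ≤ U := fun i => hU ▸ le_iSup N i
  have hst : ∀ u ∈ U, f u ∈ U := by
    have h1 : U.map f ≤ U := by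
      rw [← hU, Submodule.map_iSup]
      refine iSup_le fun i => ?_
      rintro _ ⟨u, hu, rfl⟩
      exact Submodule.mem_iSup_of_mem (σ i) (hf i u hu)
    exact fun u hu => h1 ⟨u, hu, rfl⟩
  set N' : ι → Submodule ℂ U := fun i => (N i).comap U.subtype with hN'
  have hint : IsInternal N' := by
    refine (isInternal_submodule_iff_iSupIndep_and_iSup_eq_top _).mpr ⟨?_, ?_⟩
    · let e : Submodule ℂ U ≃o Set.Iic U := U.mapIic
      suffices (e ∘ N') = fun i => ⟨N i, hle i⟩ by
        rw [← iSupIndep_map_orderIso_iff e, this]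
        exact iSupIndep.of_coe_Iic_comp hN
      funext i
      apply Subtype.ext
      change (N' i).map U.subtype = N i
      rw [hN', Submodule.map_comap_eq, Submodule.range_subtype, inf_eq_right]
      exact hle i
    · apply Submodule.map_injective_of_injective (f := U.subtype) (Submodule.subtype_injective _)
      rw [Submodule.map_iSup, Submodule.map_top, Submodule.range_subtype]
      refine Eq.trans ?_ hU
      refine iSup_congr fun i => ?_
      rw [Submodule.map_comap_eq, Submodule.range_subtype, inf_eq_right]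
      exact hle i
  let b : ∀ i, Basis (Free.ChooseBasisIndex ℂ (N' i)) ℂ (N' i) := fun i => Free.chooseBasis ℂ (N' i)
  rw [trOn_eq hst, LinearMap.trace_eq_matrix_trace ℂ (hint.collectedBasis b), Matrix.trace,
    Fintype.sum_sigma]
  refine Finset.sum_congr rfl fun i _ => ?_
  have hmem : ∀ k, f.restrict hst ((b i k : N' i) : U) ∈ N' (σ i) := fun k => hf i _ (b i k).2
  split_ifs with hσ
  · have hfi : ∀ u ∈ N i, f u ∈ N i := fun u hu => by
      have := hf i u hu
      rwa [hσ] at this
    have hfi' : ∀ u ∈ N' i, f.restrict hst u ∈ N' i := fun u hu => hfi _ hu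
    have h2 : trOn (N i) f = LinearMap.trace ℂ (N' i) ((f.restrict hst).restrict hfi') := by
      rw [trOn_eq hfi]
      have : f.restrict hfi = (Submodule.comapSubtypeEquivOfLe (hle i)).conj
          ((f.restrict hst).restrict hfi') := rfl
      rw [this, LinearMap.trace_conj']
    rw [h2, LinearMap.trace_eq_matrix_trace ℂ (b i), Matrix.trace]
    refine Finset.sum_congr rfl fun k _ => ?_
    rw [Matrix.diag_apply, Matrix.diag_apply, LinearMap.toMatrix_apply, LinearMap.toMatrix_apply,
      IsInternal.collectedBasis_coe]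
    have h3 : f.restrict hst ((b i k : N' i) : U) ∈ N' i := hfi' _ (b i k).2
    rw [hint.collectedBasis_repr_of_mem b h3]
    rfl
  · refine Finset.sum_eq_zero fun k _ => ?_
    rw [Matrix.diag_apply, LinearMap.toMatrix_apply, IsInternal.collectedBasis_coe]
    exact hint.collectedBasis_repr_of_mem_ne b hσ (hmem k)

/-- the trace on the sum of two independent stable subspaces -/
theorem trOn_sup {U U' : Submodule ℂ V} (h : Disjoint U U') {f : Module.End ℂ V}
    (hU : ∀ u ∈ U, f u ∈ U) (hU' : ∀ u ∈ U', f u ∈ U') : trOn (U ⊔ U') f = trOn U f + trOn U' f := by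
  classical
  have h1 := trOn_perm (fun i : Bool => cond i U U') (by
    rw [iSupIndep_def]
    rintro (_ | _)
    · simpa using h.symm
    · simpa using h) (U ⊔ U') (by rw [iSup_bool_eq]; rfl) f id (by
    rintro (_ | _)
    · exact hU'
    · exact hU)
  rw [h1]
  simp

end Pool.Agent.Q12.NL
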